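import Mathlib
import Pool.Agent.N485.KingMain

set_option autoImplicit false

/-!
MP_abcfaf_gt: Q1 and Q2, both answered positively.
-/

namespace Pool.Agent.Results.MP_abcfaf_gt.KingCompact

open Pool.Agent.N485.King

universe u

/-- The family `[X]²` of two-element subsets of `X`. -/
def Pairs (X : Type u) : Type u := {s : Set X // ∃ a b : X, a ≠ b ∧ s = {a, b}}

/-- The two-element set `{a, b}`, for `a ≠ b`. -/
def pair {X : Type u} (a b : X) (h : a ≠ b) : Pairs X := ⟨{a, b}, a, b, h, rfl⟩

/-- `φ : [X]² → X` is a weak selection: `φ({a, b}) ∈ {a, b}`. -/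
def IsWeakSelection {X : Type u} (φ : Pairs X → X) : Prop := ∀ s : Pairs X, φ s ∈ s.1

/-- `a →_φ b`: either `a = b`, or `a ≠ b` and `φ({a, b}) = b`. -/
def Arrow {X : Type u} (φ : Pairs X → X) (a b : X) : Prop :=
  a = b ∨ ∃ h : a ≠ b, φ (pair a b h) = b

/-- `z` is a `φ`-king: for every `x` some `y` satisfies `z →_φ y →_φ x`. -/
def IsKing {X : Type u} (φ : Pairs X → X) (z : X) : Prop :=
  ∀ x : X, ∃ y : X, Arrow φ z y ∧ Arrow φ y x

/-- Continuity of a weak selection. -/
def ContinuousSelection {X : Type u} [TopologicalSpace X] (φ : Pairs X → X) : Prop :=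
  ∀ (a b : X) (h : a ≠ b) (W : Set X), IsOpen W → φ (pair a b h) ∈ W →
    ∃ U V : Set X, IsOpen U ∧ IsOpen V ∧ a ∈ U ∧ b ∈ V ∧
      ∀ a' ∈ U, ∀ b' ∈ V, ∀ h' : a' ≠ b', φ (pair a' b' h') ∈ W

/-- `X` is a king space: every continuous weak selection `φ` on `X` has a `φ`-king. -/
def KingSpace (X : Type u) [TopologicalSpace X] : Prop :=
  ∀ φ : Pairs X → X, IsWeakSelection φ → ContinuousSelection φ → ∃ z : X, IsKing φ z

/-- `X` admits at least one continuous weak selection. -/
def HasContinuousSelection (X : Type u) [TopologicalSpace X] : Prop :=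
  ∃ φ : Pairs X → X, IsWeakSelection φ ∧ ContinuousSelection φ

/-- Pseudocompactness: every continuous real-valued function is bounded. -/
def Pseudocompact (Y : Type u) [TopologicalSpace Y] : Prop :=
  ∀ f : Y → ℝ, Continuous f → ∃ M : ℝ, ∀ y : Y, |f y| ≤ M

/-- Each point has an open neighbourhood whose closure is pseudocompact. -/
def LocallyPseudocompact (X : Type u) [TopologicalSpace X] : Prop :=
  ∀ x : X, ∃ U : Set X, IsOpen U ∧ x ∈ U ∧ Pseudocompact (closure U)

section glue

variable {X : Type u}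

lemma pair_symm {a b : X} (h : a ≠ b) : pair a b h = pair b a h.symm :=
  Subtype.ext (Set.pair_comm a b)

/-- the relation of a weak selection -/
def rel (φ : Pairs X → X) (x y : X) : Prop := ∃ h : x ≠ y, φ (pair x y h) = x

lemma sel_rel [TopologicalSpace X] [T2Space X] {φ : Pairs X → X} (h1 : IsWeakSelection φ)
    (h2 : ContinuousSelection φ) : Sel (rel φ) where
  asymm := by
    rintro x y ⟨h, hx⟩ ⟨h', hy⟩
    rw [pair_symm] at hy
    exact h (hx.symm.trans hy)
  total := by
    intro x y h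
    rcases h1 (pair x y h) with h' | h'
    · exact Or.inl ⟨h, h'⟩
    · exact Or.inr ⟨h.symm, by rw [pair_symm]; exact h'⟩
  nhds := by
    rintro x y ⟨h, hx⟩
    obtain ⟨A, B, hA, hB, hxA, hyB, hAB⟩ := t2_separation h
    obtain ⟨U, V, hU, hV, hxU, hyV, hUV⟩ := h2 x y h A hA (by rw [hx]; exact hxA)
    refine ⟨U ∩ A, V ∩ B, hU.inter hA, hV.inter hB, ⟨hxU, hxA⟩, ⟨hyV, hyB⟩, ?_⟩
    intro u hu v hv
    have huv : u ≠ v := by
      rintro rfl
      exact Set.disjoint_left.1 hAB hu.2 hv.2
    refine ⟨huv, ?_⟩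
    rcases h1 (pair u v huv) with h' | h'
    · exact h'
    · exfalso
      have h3 := hUV u hu.1 v hv.1 huv
      have h4 : φ (pair u v huv) = v := h'
      rw [h4] at h3
      exact Set.disjoint_left.1 hAB h3 hv.2

/-- the weak selection of a relation -/
lemma exists_selection [TopologicalSpace X] {r : X → X → Prop} (hr : Sel r) :
    ∃ φ : Pairs X → X, IsWeakSelection φ ∧ (∀ a b (h : a ≠ b), r a b → φ (pair a b h) = a) ∧
      (∀ a b (h : a ≠ b), r b a → φ (pair a b h) = b) := by
  classical
  have hex : ∀ s : Pairs X, ∃ x ∈ s.1, ∀ y ∈ s.1, y ≠ x → r x y := by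
    rintro ⟨s, a, b, h, rfl⟩
    rcases hr.total a b h with h' | h'
    · refine ⟨a, Or.inl rfl, ?_⟩
      rintro y (rfl | rfl) hy
      · exact absurd rfl hy
      · exact h'
    · refine ⟨b, Or.inr rfl, ?_⟩
      rintro y (rfl | rfl) hy
      · exact h'
      · exact absurd rfl hy
  choose φ hφ1 hφ2 using hex
  refine ⟨φ, hφ1, fun a b h hab => ?_, fun a b h hba => ?_⟩
  · rcases hφ1 (pair a b h) with h' | h'
    · exact h'
    · exfalso
      have h'' : φ (pair a b h) = b := h'
      have h3 := hφ2 (pair a b h) a (Or.inl rfl) (by rw [h'']; exact h)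
      rw [h''] at h3
      exact hr.asymm _ _ hab h3
  · rcases hφ1 (pair a b h) with h' | h'
    · exfalso
      have h'' : φ (pair a b h) = a := h'
      have h3 := hφ2 (pair a b h) b (Or.inr rfl) (by rw [h'']; exact h.symm)
      rw [h''] at h3
      exact hr.asymm _ _ hba h3
    · exact h'

lemma allKings [TopologicalSpace X] (H : KingSpace X) : AllKings X := by
  intro r hr
  obtain ⟨φ, h1, h2, h3⟩ := exists_selection hr
  have hcont : ContinuousSelection φ := by
    intro a b h W hW hab
    rcases hr.total a b h with h' | h'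
    · rw [h2 a b h h'] at hab
      obtain ⟨U, V, hU, hV, haU, hbV, hUV⟩ := hr.nhds a b h'
      refine ⟨U ∩ W, V, hU.inter hW, hV, ⟨haU, hab⟩, hbV, fun a' ha' b' hb' hne => ?_⟩
      rw [h2 a' b' hne (hUV a' ha'.1 b' hb')]
      exact ha'.2
    · rw [h3 a b h h'] at hab
      obtain ⟨U, V, hU, hV, hbU, haV, hUV⟩ := hr.nhds b a h'
      refine ⟨V, U ∩ W, hV, hU.inter hW, haV, ⟨hbU, hab⟩, fun a' ha' b' hb' hne => ?_⟩
      rw [h3 a' b' hne (hUV b' hb'.1 a' ha')]
      exact hb'.2
  obtain ⟨z, hz⟩ := H φ h1 hcont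
  have harrow : ∀ a b, Arrow φ a b → b = a ∨ r b a := by
    rintro a b (h | ⟨h, h'⟩)
    · exact Or.inl h.symm
    · right
      rcases hr.total a b h with h'' | h''
      · exact absurd ((h2 a b h h'').symm.trans h') h
      · exact h''
  refine ⟨z, fun x => ?_⟩
  obtain ⟨y, hy1, hy2⟩ := hz x
  exact ⟨y, harrow _ _ hy2, harrow _ _ hy1⟩

end glue

/-- Q1 and Q2: every locally compact Hausdorff king space admitting a continuous weak selection is
compact, and more generally so is every locally pseudocompact Tychonoff king space admitting a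
continuous weak selection. -/
theorem result :
    (∀ (X : Type u) [TopologicalSpace X] [T2Space X] [LocallyCompactSpace X],
      HasContinuousSelection X → KingSpace X → CompactSpace X) ∧
    (∀ (X : Type u) [TopologicalSpace X] [T35Space X],
      LocallyPseudocompact X → HasContinuousSelection X → KingSpace X → CompactSpace X) := by
  constructor
  · intro X _ _ _ hφ hK
    obtain ⟨φ, h1, h2⟩ := hφ
    refine main (allKings hK) ?_ (sel_rel h1 h2)
    intro x
    obtain ⟨K, hK, hxK⟩ := exists_compact_mem_nhds x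
    refine ⟨interior K, isOpen_interior, mem_interior_iff_mem_nhds.2 hxK, ?_⟩
    intro f hf
    obtain ⟨p, -, hp⟩ := hK.exists_mapClusterPt (f := Filter.atTop) (u := f)
      (by simpa using ⟨0, fun n _ => interior_subset (hf n)⟩)
    exact ⟨p, hp⟩
  · intro X _ _ hX hφ hK
    obtain ⟨φ, h1, h2⟩ := hφ
    refine main (allKings hK) ?_ (sel_rel h1 h2)
    intro x
    obtain ⟨U, hU, hxU, hps⟩ := hX x
    exact ⟨U, hU, hxU, RCC_of_FC (sel_rel h1 h2) hU (FC_of_pseudocompact hps)⟩

end Pool.Agent.Results.MP_abcfaf_gt.KingCompact
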